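import Pool.Agent.Lib.MP_776403_ag.SD.SpecA
import Pool.Agent.Lib.MP_776403_ag.SD.H.Defs

/-!
# Step A for `K > 1`
-/

set_option autoImplicit false

open MvPolynomial

noncomputable section

namespace Pool.Agent.Lib.MP_776403_ag.SD.H

namespace CaseTwoAux

variable {N : ℕ}

theorem hval_one_zero (s : Fin (N + 1) → Polynomial ℂ) (n : ℕ) :
    hval s (n + 1) 1 0 = fun i => (s i).coeff 0 := by
  funext i
  unfold hval
  rw [Finset.sum_eq_single 0]
  · simp
  · intro j _ hj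
    simp [hj]
  · intro h
    exact absurd (Finset.mem_range.2 (Nat.succ_pos n)) h

end CaseTwoAux

open CaseTwoAux

theorem aCaseTwo : S_Loc → S_Good → S_Repar → S_DualV → S_NrmE → S_CombV → S_Fam → S_PtA →
    S_SigA → S_IndA → S_P0 → S_Frac → S_FinA → S_CaseTwo := by
  intro hLoc hGood hRepar hDual hNrm hComb hFam hPtA hSig hInd hP0 hFrac hFin
  intro N c d I hI k G hk hex hData hPL x v hl s hs hne
  have hx : x ∈ zer I := by
    have := hl.1.2 1 0
    rwa [one_smul, zero_smul, add_zero] at this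
  have hx0 : x ≠ 0 := hl.1.1.ne_zero 0
  obtain ⟨L⟩ := hLoc N c I hI.smooth x hx hx0
  obtain ⟨μ, hμ⟩ := hGood N c I x v L
  obtain ⟨-, hrep⟩ := hRepar N c I hI.prime hI.hom hI.smooth x v μ hl.1
  have hl' := hl.shift μ
  obtain ⟨s', hs', hval'⟩ := hrep (k + 1) s hs
  generalize hv0 : v + μ • x = v0 at hl' hs' hμ hrep
  -- the functional `lam`
  obtain ⟨wl, hwl⟩ := hDual N 2 (fun _ => True) ![x, v0]
    (hl'.1.1.comp (fun i : {i : Fin 2 // True} => i.1) Subtype.val_injective)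
  have hlam1 : ∑ l, wl 0 l * x l = 1 := by
    have := hwl 0 0 trivial trivial
    simpa using this
  have hlam0 : ∑ l, wl 0 l * v0 l = 0 := by
    have := hwl 0 1 trivial trivial
    simpa using this
  -- the dual vectors
  obtain ⟨w, hw⟩ := hDual N c (fun i => d i ≤ k + 1) (fun i => grad (G i) x)
    (hData.ind x hx hx0)
  -- normalization
  obtain ⟨Lp, hLp1, hLp0, hLpn⟩ := hNrm N c d (k + 1) G x v0 w hw s'
  have hLpz : ∀ i, k + 1 < d i → Lp i = 0 := by
    intro i hi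
    have h1 := hLp1 i
    rw [show k + 1 + 1 - d i = 0 by omega, Polynomial.mem_degreeLT] at h1
    by_contra hne0
    rw [Polynomial.degree_eq_natDegree hne0] at h1
    exact absurd h1 (by simp)
  obtain ⟨hcomb, -⟩ := hComb N c d I hI.two_le (k + 1) G (fun i hi => hData.hom i hi) x v0 hl'.1
    (k + 1) Lp hLp1 hLpz
  have hs0 : (s' - fun l => ∑ i, Lp i * gradL x v0 (G i) l) ∈ Sec I x v0 (k + 1) :=
    Submodule.sub_mem _ hs' hcomb
  generalize hs0def : (s' - fun l => ∑ i, Lp i * gradL x v0 (G i) l) = s0 at hs0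
  have hs0l : ∀ l, s0 l = s' l - ∑ i, Lp i * gradL x v0 (G i) l := by
    intro l
    rw [← hs0def]
    rfl
  have hcoef : (fun i => (s0 i).coeff 0) = fun i => (s' i).coeff 0 := by
    funext i
    rw [hs0l, Polynomial.coeff_sub, Polynomial.finsetSum_coeff, Finset.sum_eq_zero, sub_zero]
    intro j _
    rw [Polynomial.mul_coeff_zero, hLp0 j, zero_mul]
  have hξ : (fun i => (s0 i).coeff 0) ∉ GS d (k + 1) G x := by
    rw [hcoef, ← hval_one_zero s' k, hval' 1 0, mul_zero, add_zero]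
    have := hne 1 0 (Or.inl one_ne_zero)
    rwa [one_smul, zero_smul, add_zero] at this
  have hnorm : ∀ i, ∀ j : ℕ, j < k + 1 - d i → ∑ l, w i l * (s0 l).coeff (j + 1) = 0 := by
    intro i j hj
    have := hLpn i (j + 1) (by omega) (by omega)
    rw [Polynomial.finsetSum_coeff] at this
    rw [← this]
    refine Finset.sum_congr rfl fun l _ => ?_
    rw [Polynomial.coeff_C_mul, hs0l]
  obtain ⟨P, hFA, hPle, y, hy⟩ := hFam N c d I hI k G hk hex x v0 (wl 0) w hl' hlam1 hlam0 hw L hμ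
    s0 hs0 hnorm
  have hv0z : v0 ∈ zer (P0 P) := by
    intro F hF
    have h1 : rename Sum.inl F ∈ P := hF
    have h2 := hPle h1
    have h3 : eval (ptA k v0 s0) (rename (Sum.inl : Fin (N + 1) → Fin (N + 1) ⊕
      (Fin (N + 1) × Fin k)) F) = 0 := h2
    rw [eval_rename] at h3
    exact h3
  obtain ⟨sig, hsig, hprop⟩ := hSig N c d I hI k G hk hPL x _ (wl 0) w P hFA
    ⟨v0, hv0z, hl'⟩
  have hind : ∀ z ∈ zer (P0 P), z ≠ 0 → sig z ∉ GS d (k + 1) G z := by
    intro z hz hz0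
    obtain ⟨hline, sz, hsz, h1, h2⟩ := hprop z hz hz0
    exact hInd N c d I hI (k + 1) G (by omega) hData hPL x z _ (sig z) hξ hline sz hsz h1 h2
  obtain ⟨hp0, hh0, hle0, -⟩ := hP0 N I hI.hom x k P hFA.prime hFA.wh hFA.j1
  have hv00 : v0 ≠ 0 := hl'.1.1.ne_zero 1
  obtain ⟨-, sv, g, h, hg, hgh, -⟩ := hPtA N c d I hI k G hPL x _ (wl 0) w P hFA
    ⟨v0, hv0z, hl'⟩ v0 hv0z hv00
  have hdim : DimGe (P0 P) (c - Fintype.card {i // d i ≤ k + 1} + 1 + c) := by
    refine hFrac N (Fin (N + 1) × Fin k) P _ y hFA.prime hy fun q => ⟨g, h q, ?_, hgh q⟩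
    intro hgP
    exact hg (hv0z g hgP)
  exact hFin N c d I hI (k + 1) G (by omega) hData (P0 P) hp0 hh0 hle0 sig hsig hind hdim

end Pool.Agent.Lib.MP_776403_ag.SD.H
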