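import Pool.Agent.Lib.MP_776403_ag.SD.SpecA
import Pool.Agent.Lib.MP_776403_ag.SD.Bas
import Pool.Agent.Lib.MP_776403_ag.SD.H.Defs

/-!
# THEOREM SD, part A: analysis of the family at a point
-/

set_option autoImplicit false

open MvPolynomial

noncomputable section

namespace Pool.Agent.Lib.MP_776403_ag.SD.H

namespace PtAAux

variable {N : ℕ}

/-- `∑ t^j s_j`. -/
def sq {k : ℕ} (s : Fin (N + 1) × Fin k → ℂ) (i : Fin (N + 1)) : Polynomial ℂ :=
  ∑ j : Fin k, Polynomial.C (s (i, j)) * Polynomial.X ^ j.1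

theorem sq_mem {k : ℕ} (s : Fin (N + 1) × Fin k → ℂ) (i : Fin (N + 1)) :
    sq s i ∈ Polynomial.degreeLT ℂ k := by
  refine Submodule.sum_mem _ fun j _ => ?_
  rw [Polynomial.mem_degreeLT]
  refine lt_of_le_of_lt (Polynomial.degree_C_mul_X_pow_le _ _) ?_
  exact_mod_cast j.2

theorem sq_coeff {k : ℕ} (s : Fin (N + 1) × Fin k → ℂ) (i : Fin (N + 1)) (j : Fin k) :
    (sq s i).coeff j.1 = s (i, j) := by
  unfold sq
  rw [Polynomial.finsetSum_coeff, Finset.sum_eq_single j]
  · simp
  · intro b _ hb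
    rw [Polynomial.coeff_C_mul, Polynomial.coeff_X_pow, if_neg (fun h => hb (Fin.ext h.symm)),
      mul_zero]
  · intro h
    exact absurd (Finset.mem_univ _) h

theorem sp_zero {k : ℕ} (s : Fin (N + 1) × Fin k → ℂ) (i : Fin (N + 1)) :
    sp 0 s i = Polynomial.X * sq s i := by
  unfold sp sq
  rw [Pi.zero_apply, Polynomial.C_0, zero_add, Finset.mul_sum]
  refine Finset.sum_congr rfl fun j _ => ?_
  ring

theorem sp_mem {k : ℕ} (ξ : Vx N) (s : Fin (N + 1) × Fin k → ℂ) (i : Fin (N + 1)) :
    sp ξ s i ∈ Polynomial.degreeLT ℂ (k + 1) := by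
  unfold sp
  refine Submodule.add_mem _ ?_ (Submodule.sum_mem _ fun j _ => ?_)
  · rw [Polynomial.mem_degreeLT]
    refine lt_of_le_of_lt Polynomial.degree_C_le ?_
    exact_mod_cast Nat.succ_pos k
  · rw [Polynomial.mem_degreeLT]
    refine lt_of_le_of_lt (Polynomial.degree_C_mul_X_pow_le _ _) ?_
    have := j.2
    have h : j.1 + 1 < k + 1 := by lia
    exact_mod_cast h

theorem nrm_aff {k : ℕ} (w : Vx N) (j : Fin k) :
    nrmA w j = aff (fun c : Fin (N + 1) × Fin k => if c.2 = j then C (w c.1) else 0) 0 := by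
  unfold nrmA aff
  rw [map_zero, add_zero, Fintype.sum_prod_type]
  refine Finset.sum_congr rfl fun l _ => ?_
  rw [Finset.sum_eq_single j]
  · simp
  · intro b _ hb
    simp [hb]
  · intro h
    exact absurd (Finset.mem_univ _) h

end PtAAux

open PtAAux in
theorem aPtA : S_P0 → S_NrmU → S_Cram → S_Aff → S_PtA := by
  intro hP0 hNU hCr hAf N c d I H k G hPL x ξ lam w P F hex z hz hz0
  have hdef := hP0 N I H.hom x k P F.prime F.wh F.j1
  have memP0 : ∀ q : Sx N, rename Sum.inl q ∈ P → eval z q = 0 := fun q hq => hz q hq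
  have hlz : ∑ l, lam l * z l = 0 := by
    have h1 : rename (Sum.inl : Fin (N + 1) → Fin (N + 1) ⊕ (Fin (N + 1) × Fin k))
        (∑ l, C (lam l) * X l : Sx N) ∈ P := by
      rw [map_sum]
      simp only [map_mul, rename_C, rename_X]
      exact F.lamP
    have h2 := memP0 _ h1
    rw [map_sum] at h2
    simpa using h2
  have hline : GLine I x z := by
    obtain ⟨v1, hv1, hg1⟩ := hex
    refine H.clos x v1 (P0 P) hg1 hdef.1 hdef.2.1 hdef.2.2.1 hv1 hdef.2.2.2 z hz ?_
    rw [LinearIndependent.pair_iff]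
    intro s t hst
    have h1 : ∑ l, lam l * (s • x + t • z) l = s := by
      simp only [Pi.add_apply, Pi.smul_apply, smul_eq_mul, mul_add, Finset.sum_add_distrib]
      have h2 : ∑ l, lam l * (s * x l) = s * ∑ l, lam l * x l := by
        rw [Finset.mul_sum]
        exact Finset.sum_congr rfl fun l _ => by ring
      have h3 : ∑ l, lam l * (t * z l) = t * ∑ l, lam l * z l := by
        rw [Finset.mul_sum]
        exact Finset.sum_congr rfl fun l _ => by ring
      rw [h2, h3, F.lamx, hlz]
      ring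
    rw [hst] at h1
    have hs : s = 0 := by
      rw [← h1]
      simp
    refine ⟨hs, ?_⟩
    rw [hs, zero_smul, zero_add] at hst
    exact (smul_eq_zero.mp hst).resolve_right hz0
  refine ⟨hline, ?_⟩
  have hJ2 : ∀ w' ∈ TF I, ∀ n : ℕ, aff (eqA k x w' n) (eqB x ξ w' n) ∈ P := by
    intro w' hw' n
    rw [← (hAf N k x ξ w' n).1]
    exact F.j2 (Ideal.subset_span ⟨w', hw', n, rfl⟩)
  have hinj : ∀ s : Fin (N + 1) × Fin k → ℂ, (∀ (A : Fin (N + 1) × Fin k → Sx N) (b : Sx N),
      aff A b ∈ P → ∑ c, eval z (A c) * s c = 0) → s = 0 := by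
    intro s hs
    have hB0 : ∀ (w' : Fin (N + 1) → Sx N) (n : ℕ), eqB x 0 w' n = 0 := by
      intro w' n
      unfold eqB
      refine Finset.sum_eq_zero fun i _ => ?_
      rw [Pi.zero_apply, C_0, zero_mul]
    have h1 : ∀ w' ∈ TF I, ∑ i, sp 0 s i * lin x z (w' i) = 0 := by
      intro w' hw'
      refine Polynomial.ext fun n => ?_
      rw [(hAf N k x 0 w' n).2 z s, hs _ _ (hJ2 w' hw' n), hB0, map_zero, add_zero,
        Polynomial.coeff_zero]
    have h2 : sq s ∈ Sec I x z k := by
      refine ⟨fun i => sq_mem s i, fun w' hw' _ _ => ?_⟩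
      have h3 := h1 w' hw'
      have h4 : Polynomial.X * ∑ i, sq s i * lin x z (w' i) = 0 := by
        rw [Finset.mul_sum, ← h3]
        refine Finset.sum_congr rfl fun i _ => ?_
        rw [sp_zero, mul_assoc]
      exact (mul_eq_zero.mp h4).resolve_left Polynomial.X_ne_zero
    obtain ⟨L', hL', hsL⟩ := hPL x z hline (sq s) h2
    have hsl : ∀ l, sq s l = ∑ i, L' i * gradL x z (G i) l := by
      intro l
      rw [hsL, Finset.sum_apply]
    have h5 := hNU N c d (k + 1) G x z w F.dual (fun i => Polynomial.X * L' i) ?_ ?_ ?_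
    · have h6 : ∀ i, L' i = 0 := fun i =>
        (mul_eq_zero.mp (h5 i)).resolve_left Polynomial.X_ne_zero
      funext p
      obtain ⟨l, j⟩ := p
      rw [← sq_coeff s l j, hsl l]
      simp [h6]
    · intro i
      have h6 := hL' i
      change Polynomial.X * L' i ∈ _
      rw [Polynomial.mem_degreeLT] at h6 ⊢
      by_cases h0 : L' i = 0
      · rw [h0, mul_zero, Polynomial.degree_zero]
        exact WithBot.bot_lt_coe _
      rw [Polynomial.degree_eq_natDegree h0] at h6
      rw [Polynomial.degree_mul, Polynomial.degree_X, Polynomial.degree_eq_natDegree h0]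
      have h7 : (L' i).natDegree < k + 1 - d i := by exact_mod_cast h6
      have h8 : 1 + (L' i).natDegree < k + 1 + 1 - d i := by lia
      exact_mod_cast h8
    · intro i
      exact Polynomial.coeff_X_mul_zero _
    · intro i j hj1 hj2
      have hd := H.two_le i
      have h6 : ∀ l, ∑ i', (Polynomial.X * L' i') * gradL x z (G i') l =
          Polynomial.X * sq s l := by
        intro l
        rw [hsl l, Finset.mul_sum]
        exact Finset.sum_congr rfl fun i' _ => by ring
      simp only [h6]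
      obtain ⟨j', rfl⟩ : ∃ j', j = j' + 1 := ⟨j - 1, by lia⟩
      have hjk : j' < k := by lia
      rw [Polynomial.finsetSum_coeff]
      have h7 : ∀ l, (Polynomial.C (w i l) * (Polynomial.X * sq s l)).coeff (j' + 1) =
          w i l * s (l, ⟨j', hjk⟩) := by
        intro l
        rw [Polynomial.coeff_C_mul, Polynomial.coeff_X_mul, ← sq_coeff s l ⟨j', hjk⟩]
      simp only [h7]
      have h8 := F.nrmP i ⟨j', hjk⟩ (by
        change j' < k + 1 - d i
        lia)
      rw [nrm_aff] at h8
      have h9 := hs _ _ h8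
      rw [Fintype.sum_prod_type] at h9
      rw [← h9]
      refine Finset.sum_congr rfl fun l _ => ?_
      rw [Finset.sum_eq_single ⟨j', hjk⟩]
      · simp
      · intro b _ hb
        simp [hb]
      · intro h
        exact absurd (Finset.mem_univ _) h
  obtain ⟨s, g, h, hg, hfr, hv⟩ := hCr N (Fin (N + 1) × Fin k) P z memP0 hinj
  refine ⟨s, g, h, hg, hfr, hv, fun i => sp_mem ξ s i, fun w' hw' _ _ => ?_⟩
  refine Polynomial.ext fun n => ?_
  rw [(hAf N k x ξ w' n).2 z s, hv _ _ (hJ2 w' hw' n), Polynomial.coeff_zero]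

end Pool.Agent.Lib.MP_776403_ag.SD.H
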