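import Pool.Agent.Lib.MP_776403_ag.SD.SpecA
import Pool.Agent.Lib.MP_776403_ag.SD.Bas
import Pool.Agent.Lib.MP_776403_ag.SD.H.Defs

/-!
# THEOREM SD, part A: the section over the family (helper93)
-/

set_option autoImplicit false

open MvPolynomial

noncomputable section

namespace Pool.Agent.Lib.MP_776403_ag.SD.H

namespace SigAAux

variable {N k : ℕ}

theorem weight_inl (u : Fin (N + 1) →₀ ℕ) :
    Finsupp.weight (wt N k) (u.mapDomain Sum.inl) = u.degree := by
  rw [Finsupp.weight_apply, Finsupp.sum_mapDomain_index (by simp) (by intros; simp [add_mul])]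
  simp only [wt, smul_eq_mul, mul_one]
  rfl

theorem wh_rename {q : Sx N} {m : ℕ} (hq : q.IsHomogeneous m) :
    IsWeightedHomogeneous (wt N k) (rename Sum.inl q : Ak N k) m := by
  intro e he
  obtain ⟨u, rfl, hu⟩ := coeff_rename_ne_zero _ _ _ he
  rw [weight_inl]
  have h1 := hq hu
  rw [← h1, Finsupp.degree_eq_weight_one]
  rfl

theorem whc_rename (q : Sx N) (m : ℕ) :
    weightedHomogeneousComponent (wt N k) m (rename Sum.inl q : Ak N k) =
      rename Sum.inl (homogeneousComponent m q) := by
  have h1 : ∀ i, weightedHomogeneousComponent (wt N k) m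
      (rename Sum.inl (homogeneousComponent i q) : Ak N k) =
      if m = i then rename Sum.inl (homogeneousComponent i q) else 0 := by
    intro i
    exact weightedHomogeneousComponent_of_mem
      (wh_rename (homogeneousComponent_isHomogeneous i q))
  conv_lhs => rw [← sum_homogeneousComponent q, map_sum, map_sum]
  rw [Finset.sum_congr rfl fun i _ => h1 i, Finset.sum_ite_eq]
  split_ifs with h
  · rfl
  · rw [homogeneousComponent_eq_zero, map_zero]
    rw [Finset.mem_range] at h
    omega

theorem whc_rename_mul (q : Sx N) (m : ℕ) (c : Fin (N + 1) × Fin k) :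
    weightedHomogeneousComponent (wt N k) (m + (c.2.1 + 1))
      (rename Sum.inl q * X (Sum.inr c) : Ak N k) =
      rename Sum.inl (homogeneousComponent m q) * X (Sum.inr c) := by
  have h1 : ∀ i, weightedHomogeneousComponent (wt N k) (m + (c.2.1 + 1))
      (rename Sum.inl (homogeneousComponent i q) * X (Sum.inr c) : Ak N k) =
      if m = i then rename Sum.inl (homogeneousComponent i q) * X (Sum.inr c) else 0 := by
    intro i
    have h2 : IsWeightedHomogeneous (wt N k)
        (rename Sum.inl (homogeneousComponent i q) * X (Sum.inr c) : Ak N k)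
        (i + (c.2.1 + 1)) :=
      (wh_rename (homogeneousComponent_isHomogeneous i q)).mul
        (isWeightedHomogeneous_X ℂ (wt N k) (Sum.inr c))
    rw [weightedHomogeneousComponent_of_mem h2]
    by_cases h : m = i
    · rw [if_pos h, if_pos (by rw [h])]
    · rw [if_neg h, if_neg (by omega)]
  conv_lhs => rw [← sum_homogeneousComponent q, map_sum, Finset.sum_mul, map_sum]
  rw [Finset.sum_congr rfl fun i _ => h1 i, Finset.sum_ite_eq]
  split_ifs with h
  · rfl
  · rw [homogeneousComponent_eq_zero, map_zero, zero_mul]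
    rw [Finset.mem_range] at h
    omega

theorem sp_coeff_zero (ξ : Vx N) (s : Fin (N + 1) × Fin k → ℂ) (i : Fin (N + 1)) :
    (sp ξ s i).coeff 0 = ξ i := by
  rw [sp, Polynomial.coeff_add, Polynomial.coeff_C_zero, Polynomial.finsetSum_coeff,
    Finset.sum_eq_zero, add_zero]
  intro j _
  rw [Polynomial.coeff_C_mul, Polynomial.coeff_X_pow, if_neg (by omega), mul_zero]

theorem sp_coeff_last (ξ : Vx N) (s : Fin (N + 1) × Fin k → ℂ) (i : Fin (N + 1)) (j0 : Fin k) :
    (sp ξ s i).coeff (j0.1 + 1) = s (i, j0) := by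
  rw [sp, Polynomial.coeff_add, Polynomial.coeff_C_of_ne_zero (by omega), zero_add,
    Polynomial.finsetSum_coeff, Finset.sum_eq_single j0]
  · rw [Polynomial.coeff_C_mul, Polynomial.coeff_X_pow, if_pos rfl, mul_one]
  · intro j _ hj
    rw [Polynomial.coeff_C_mul, Polynomial.coeff_X_pow, if_neg, mul_zero]
    intro h
    apply hj
    exact Fin.ext (by omega)
  · intro h
    exact absurd (Finset.mem_univ _) h

theorem hval_one_zero (s : Fin (N + 1) → Polynomial ℂ) (k : ℕ) :
    hval s (k + 1) 1 0 = fun i => (s i).coeff 0 := by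
  funext i
  rw [hval, Finset.sum_eq_single 0]
  · simp
  · intro j _ hj
    rw [zero_pow hj, mul_zero]
  · intro h
    exact absurd (Finset.mem_range.2 (Nat.succ_pos k)) h

theorem hval_zero_one (s : Fin (N + 1) → Polynomial ℂ) (k : ℕ) :
    hval s (k + 1) 0 1 = fun i => (s i).coeff k := by
  funext i
  rw [hval, Finset.sum_eq_single k]
  · simp
  · intro j hj hjk
    rw [Finset.mem_range] at hj
    rw [zero_pow (by omega), mul_zero, zero_mul]
  · intro h
    exact absurd (Finset.mem_range.2 (Nat.lt_succ_self k)) h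

theorem exists_component {g : Sx N} {y : Vx N} (hg : eval y g ≠ 0) :
    ∃ n : ℕ, eval y (homogeneousComponent n g) ≠ 0 := by
  by_contra hcon
  push Not at hcon
  apply hg
  rw [← sum_homogeneousComponent g, map_sum]
  exact Finset.sum_eq_zero fun i _ => hcon i

end SigAAux

open SigAAux

theorem aSigA : S_PtA → S_SecVal → S_SigA := by
  intro hPt hSV N c d I hyp k G hk hPL x ξ lam w P hF hex
  have hp := hPt N c d I hyp k G hPL x ξ lam w P hF hex
  have H : ∀ z : Vx N, ∃ s : Fin (N + 1) × Fin k → ℂ, z ∈ zer (P0 P) → z ≠ 0 →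
      (GLine I x z ∧ (∃ (g : Sx N) (h : Fin (N + 1) × Fin k → Sx N), eval z g ≠ 0 ∧
      ∀ c, rename Sum.inl g * X (Sum.inr c) - rename Sum.inl (h c) ∈ P) ∧
      (∀ (A : Fin (N + 1) × Fin k → Sx N) (b : Sx N), aff A b ∈ P →
        ∑ c, eval z (A c) * s c + eval z b = 0) ∧
      sp ξ s ∈ Sec I x z (k + 1)) := by
    intro z
    by_cases hz : z ∈ zer (P0 P) ∧ z ≠ 0
    · obtain ⟨h1, s, g, h, h2, h3, h4, h5⟩ := hp z hz.1 hz.2
      exact ⟨s, fun _ _ => ⟨h1, ⟨g, h, h2, h3⟩, h4, h5⟩⟩
    · exact ⟨0, fun h1 h2 => absurd ⟨h1, h2⟩ hz⟩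
  choose S hS using H
  obtain ⟨j0, hj0⟩ : ∃ j0 : Fin k, j0.1 + 1 = k := ⟨⟨k - 1, by omega⟩, by simp; omega⟩
  have hv0 : ∀ z, hval (sp ξ (S z)) (k + 1) 1 0 = ξ := by
    intro z
    rw [hval_one_zero]
    funext i
    exact sp_coeff_zero ξ (S z) i
  have hv1 : ∀ z, hval (sp ξ (S z)) (k + 1) 0 1 = fun l => S z (l, j0) := by
    intro z
    rw [hval_zero_one]
    funext i
    have h1 := sp_coeff_last ξ (S z) i j0
    rwa [hj0] at h1
  refine ⟨fun z l => S z (l, j0), ?_, ?_⟩
  · intro y hy hy0
    obtain ⟨h1, ⟨g, h, h2, h3⟩, h4, h5⟩ := hS y hy hy0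
    refine ⟨?_, ?_⟩
    · have h6 := (hSV N c I hyp.prime hyp.hom hyp.smooth x y h1.1 (k + 1) (sp ξ (S y)) h5.1).1 h5
        0 1 (Or.inr one_ne_zero)
      rw [hv1, zero_smul, one_smul, zero_add] at h6
      exact h6
    · obtain ⟨n, hn⟩ := exists_component h2
      refine ⟨fun l => homogeneousComponent (n + k) (h (l, j0)), homogeneousComponent n g, n,
        fun l => ?_, homogeneousComponent_isHomogeneous n g, hn, fun z hz hz0 l => ?_⟩
      · have h6 := homogeneousComponent_isHomogeneous (n + k) (h (l, j0))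
        rwa [show n + (k + 1) - 1 = n + k by omega]
      · obtain ⟨_, _, h7, _⟩ := hS z hz hz0
        have h8 := hF.wh _ (h3 (l, j0)) (n + k)
        rw [map_sub, whc_rename] at h8
        have h9 := whc_rename_mul g n (l, j0)
        rw [show n + (((l, j0) : Fin (N + 1) × Fin k).2.1 + 1) = n + k by
          show n + (j0.1 + 1) = n + k
          omega] at h9
        rw [h9] at h8
        have h10 : aff (fun c => if c = (l, j0) then homogeneousComponent n g else 0)
            (-homogeneousComponent (n + k) (h (l, j0))) ∈ P := by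
          have h11 : aff (fun c => if c = (l, j0) then homogeneousComponent n g else 0)
              (-homogeneousComponent (n + k) (h (l, j0))) =
              rename Sum.inl (homogeneousComponent n g) * X (Sum.inr (l, j0)) -
                rename Sum.inl (homogeneousComponent (n + k) (h (l, j0))) := by
            rw [aff, map_neg, ← sub_eq_add_neg, Finset.sum_eq_single (l, j0)]
            · rw [if_pos rfl]
            · intro c _ hc
              rw [if_neg hc, map_zero, zero_mul]
            · intro hc
              exact absurd (Finset.mem_univ _) hc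
          rw [h11]
          exact h8
        have h12 := h7 _ _ h10
        rw [Finset.sum_eq_single (l, j0), if_pos rfl, map_neg] at h12
        · show S z (l, j0) * _ = _
          linear_combination h12
        · intro c _ hc
          rw [if_neg hc, map_zero, zero_mul]
        · intro hc
          exact absurd (Finset.mem_univ _) hc
  · intro z hz hz0
    obtain ⟨h1, _, _, h5⟩ := hS z hz hz0
    exact ⟨h1, sp ξ (S z), h5, hv0 z, hv1 z⟩

end Pool.Agent.Lib.MP_776403_ag.SD.H
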